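import Pool.Agent.PSS.StmtsS4

/-! Row DFR of squad PSS: the dual frame (helper40). -/

open scoped BigOperators TensorProduct

noncomputable section

namespace Pool.Agent.PSS.H40

open Pool.Agent.PFC (tw IsTv)
open Pool.Agent.PFD.D2b (FrR)

variable {R V A K : Type} [CommRing R] [CommGroup V] [Fintype V] [Ring A] [Algebra R A] [Fintype K]

theorem rf_nd {α : V →* A} {lam : A →ₗ[R] R} {x y : K → A} (h : RF R α lam x y) {a a' : A}
    (h0 : ∀ b, lam (a * b) = lam (a' * b)) : a = a' := by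
  rw [← h.e2 a, ← h.e2 a']
  refine Finset.sum_congr rfl fun k _ => Finset.sum_congr rfl fun v _ => ?_
  rw [h0]

theorem mem_tw_of {W : Type} [CommGroup W] (f : W →* W) (S : Subgroup W) {u v : W}
    (h : (u, v) ∈ tw f S) : u = f v := by
  obtain ⟨s, _, hs⟩ := h
  have h1 : f s = u := congrArg Prod.fst hs
  have h2 : s = v := congrArg Prod.snd hs
  rw [← h1, h2]

theorem dfr : DfrStmt := by
  intro R V E A K Ω _ _ _ _ _ _ _ _ _ φ α lam x y b c hRF hF hst
  obtain ⟨hb, hc, hs⟩ := hF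
  have key : ∀ ω a, c ω a =
      lam ((∑ k, ∑ v, c ω (x k * α v) • (α v⁻¹ * y k)) * a) := by
    intro ω a
    conv_lhs => rw [← hRF.e1 a]
    rw [map_sum, Finset.sum_mul, map_sum]
    refine Finset.sum_congr rfl fun k _ => ?_
    rw [map_sum, Finset.sum_mul, map_sum]
    refine Finset.sum_congr rfl fun v _ => ?_
    rw [map_smul, smul_mul_assoc, map_smul, smul_eq_mul, smul_eq_mul, mul_comm]
  refine ⟨fun ω => ∑ k, ∑ v, c ω (x k * α v) • (α v⁻¹ * y k), key, ?_⟩
  refine ⟨hRF.sym, ?_, ?_, ?_, ?_, ?_⟩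
  · intro u v ω
    rw [hb]
    change α u * (b ω * α v⁻¹) = _
    rw [mul_assoc]
  · intro u v ω
    refine rf_nd hRF fun a => ?_
    rw [← key]
    have h1 : bw R α (u, v) (α u⁻¹ * a * α v) = a := by
      change α u * (α u⁻¹ * a * α v * α v⁻¹) = a
      rw [mul_assoc (α u⁻¹ * a), ← map_mul, mul_inv_cancel, map_one, mul_one, ← mul_assoc,
        ← map_mul, mul_inv_cancel, map_one, one_mul]
    have h2 := hc (u, v) ω (α u⁻¹ * a * α v)
    rw [h1] at h2
    rw [h2, key, ← mul_assoc, ← mul_assoc, hRF.sym, ← mul_assoc, ← mul_assoc]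
  · intro a
    calc ∑ ω, lam ((∑ k, ∑ v, c ω (x k * α v) • (α v⁻¹ * y k)) * a) • b ω
        = ∑ ω, c ω a • b ω := Finset.sum_congr rfl fun ω _ => by rw [← key]
      _ = a := hs a
  · intro u ω h
    obtain ⟨e, S, hS⟩ := hst ω
    have h1 : ((u, 1) : V × V) ∈ MulAction.stabilizer (V × V) ω := h
    rw [hS] at h1
    have h2 := mem_tw_of _ _ h1
    rw [h2, map_one]
  · intro v ω h
    obtain ⟨e, S, hS⟩ := hst ω
    have h1 : ((1, v) : V × V) ∈ MulAction.stabilizer (V × V) ω := h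
    rw [hS] at h1
    have h2 := mem_tw_of _ _ h1
    have h3 : (φ e) v = 1 := h2.symm
    exact (MulEquiv.map_eq_one_iff (φ e)).1 h3

end Pool.Agent.PSS.H40
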