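import Pool.Agent.PSS.StmtsS2

/-!
# Squad PSS, row WWL (helper40): a map which is linear modulo `q`
-/

open scoped BigOperators

noncomputable section

namespace Pool.Agent.PSS.S2.H40

open Pool.Agent.PFD.D2b (FrR)
open Finset

theorem cg_refl {R M : Type} [CommRing R] [AddCommGroup M] [Module R M] (q : R) (a : M) :
    Cg q a a := ⟨0, by simp⟩

theorem cg_symm {R M : Type} [CommRing R] [AddCommGroup M] [Module R M] {q : R} {a b : M}
    (h : Cg q a b) : Cg q b a := by
  obtain ⟨d, hd⟩ := h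
  exact ⟨-d, by rw [smul_neg, ← hd, neg_sub]⟩

theorem cg_trans {R M : Type} [CommRing R] [AddCommGroup M] [Module R M] {q : R} {a b c : M}
    (h : Cg q a b) (h' : Cg q b c) : Cg q a c := by
  obtain ⟨d, hd⟩ := h
  obtain ⟨e, he⟩ := h'
  exact ⟨d + e, by rw [smul_add, ← hd, ← he, sub_add_sub_cancel]⟩

theorem cg_map {R M N : Type} [CommRing R] [AddCommGroup M] [Module R M] [AddCommGroup N]
    [Module R N] {q : R} {a b : M} (f : M →ₗ[R] N) (h : Cg q a b) : Cg q (f a) (f b) := by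
  obtain ⟨d, hd⟩ := h
  exact ⟨f d, by rw [← map_sub, hd, map_smul]⟩

theorem cg_sum {R M ι : Type} [CommRing R] [AddCommGroup M] [Module R M] {q : R}
    (s : Finset ι) {f g : ι → M} (h : ∀ i ∈ s, Cg q (f i) (g i)) :
    Cg q (∑ i ∈ s, f i) (∑ i ∈ s, g i) := by
  classical
  induction s using Finset.induction_on with
  | empty => exact ⟨0, by simp⟩
  | insert a s ha ih =>
    obtain ⟨d, hd⟩ := h a (mem_insert_self a s)
    obtain ⟨e, he⟩ := ih fun i hi => h i (mem_insert_of_mem hi)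
    refine ⟨d + e, ?_⟩
    rw [sum_insert ha, sum_insert ha, smul_add, ← hd, ← he]
    abel

/-- WWL -/
theorem wwl : WwlStmt := by
  intro R V A Ω _ _ _ _ _ _ q α b c W G hfr hG
  classical
  obtain ⟨h1, h2, h3⟩ := hfr
  -- the map modulo `q`
  have hbw : ∀ (g : V × V) (a : A), bw R α g a = α g.1 * (a * α g.2⁻¹) := fun g a => rfl
  have hGs : ∀ g : V × V, g.1 ∈ W → g.2 ∈ W → ∀ a, Cg q (G (bw R α g a)) (bw R α g (G a)) := by
    intro g hg1 hg2 a
    rw [hbw, hbw]
    refine cg_trans (hG g.1 hg1 _).1 ?_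
    exact cg_map (LinearMap.mulLeft R (α g.1)) (hG g.2⁻¹ (W.inv_mem hg2) a).2
  -- the coefficients
  let r : Ω × Ω → R := fun p => c p.1 (G (b p.2))
  have hr : ∀ g : V × V, g.1 ∈ W → g.2 ∈ W → ∀ p : Ω × Ω,
      Cg q (r (g • p.1, g • p.2)) (r p) := by
    intro g hg1 hg2 p
    show Cg q (c (g • p.1) (G (b (g • p.2)))) (c p.1 (G (b p.2)))
    rw [h1, ← h2 g p.1 (G (b p.2))]
    exact cg_map (c (g • p.1)) (hGs g hg1 hg2 (b p.2))
  -- the orbits
  let S : Setoid (Ω × Ω) :=
    { r := fun p p' => ∃ g : V × V, g.1 ∈ W ∧ g.2 ∈ W ∧ (g • p.1, g • p.2) = p'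
      iseqv := by
        constructor
        · intro p
          exact ⟨1, W.one_mem, W.one_mem, by rw [one_smul, one_smul]⟩
        · rintro p p' ⟨g, hg1, hg2, rfl⟩
          exact ⟨g⁻¹, W.inv_mem hg1, W.inv_mem hg2, by
            rw [inv_smul_smul, inv_smul_smul]⟩
        · rintro p p' p'' ⟨g, hg1, hg2, rfl⟩ ⟨g', hg1', hg2', rfl⟩
          exact ⟨g' * g, W.mul_mem hg1' hg1, W.mul_mem hg2' hg2, by
            rw [mul_smul, mul_smul]⟩ }
  let r' : Ω × Ω → R := fun p => r (Quotient.out (Quotient.mk S p))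
  have hr1 : ∀ p, Cg q (r' p) (r p) := by
    intro p
    have h := Quotient.exact (Quotient.out_eq (Quotient.mk S p))
    obtain ⟨g, hg1, hg2, hg⟩ := S.symm h
    show Cg q (r (Quotient.out (Quotient.mk S p))) (r p)
    rw [← hg]
    exact hr g hg1 hg2 p
  have hr2 : ∀ g : V × V, g.1 ∈ W → g.2 ∈ W → ∀ p : Ω × Ω, r' (g • p.1, g • p.2) = r' p := by
    intro g hg1 hg2 p
    show r (Quotient.out (Quotient.mk S (g • p.1, g • p.2))) = r (Quotient.out (Quotient.mk S p))
    have h : Quotient.mk S p = Quotient.mk S (g • p.1, g • p.2) :=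
      Quotient.sound ⟨g, hg1, hg2, rfl⟩
    rw [h]
  let v : A →ₗ[R] A := ∑ ω, ∑ η, (c ω).smulRight (r' (η, ω) • b η)
  have hv : ∀ a, v a = ∑ ω, ∑ η, (c ω a * r' (η, ω)) • b η := by
    intro a
    show (∑ ω, ∑ η, (c ω).smulRight (r' (η, ω) • b η)) a = _
    simp [LinearMap.sum_apply, smul_smul]
  have hvs : ∀ g : V × V, g.1 ∈ W → g.2 ∈ W → ∀ a, v (bw R α g a) = bw R α g (v a) := by
    intro g hg1 hg2 a
    rw [hv, hv]
    rw [← Equiv.sum_comp (MulAction.toPerm g)]
    rw [map_sum]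
    apply sum_congr rfl
    intro ω _
    rw [← Equiv.sum_comp (MulAction.toPerm g), map_sum]
    apply sum_congr rfl
    intro η _
    show (c (g • ω) (bw R α g a) * r' (g • η, g • ω)) • b (g • η) =
      bw R α g ((c ω a * r' (η, ω)) • b η)
    rw [h2, h1, hr2 g hg1 hg2 (η, ω), map_smul]
  refine ⟨v, ?_, ?_⟩
  · intro w hw a
    constructor
    · have h := hvs (w, 1) hw W.one_mem a
      rw [hbw, hbw, inv_one, map_one, mul_one, mul_one] at h
      exact h
    · have h := hvs (1, w⁻¹) W.one_mem (W.inv_mem hw) a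
      rw [hbw, hbw, inv_inv, map_one, one_mul, one_mul] at h
      exact h
  · intro a
    have h : G a = ∑ ω, ∑ η, (c ω a * r (η, ω)) • b η := by
      conv_lhs => rw [← h3 a]
      rw [map_sum]
      apply sum_congr rfl
      intro ω _
      rw [map_smul]
      conv_lhs => rw [← h3 (G (b ω))]
      rw [smul_sum]
      apply sum_congr rfl
      intro η _
      rw [smul_smul]
    rw [hv, h]
    apply cg_sum
    intro ω _
    apply cg_sum
    intro η _
    obtain ⟨d, hd⟩ := hr1 (η, ω)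
    refine ⟨(c ω a * d) • b η, ?_⟩
    rw [← sub_smul, ← mul_sub, hd, smul_eq_mul, smul_smul]
    congr 1
    ring

end Pool.Agent.PSS.S2.H40
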