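import Pool.Agent.PSS.StmtsS1e

/-! Row FRD of squad PSS: centre and form of a deformation in the sense of `Df` (helper40). -/

open scoped BigOperators TensorProduct

noncomputable section

namespace Pool.Agent.PSS.H40

open Pool.Agent.PFC (tw)
open Pool.Agent.PFD.D2b (FrR)

theorem frd (hD : DfmStmt) (hC : CefStmt) (hF : FrfStmt) : FrdStmt := by
  intro ℓ _ F V E A A' κ _ _ _ _ _ _ _ _ _ _ _ _ _ _ φ W _ z α α' lam x y u hPer hRF hu hVz df
  obtain ⟨Ω, iF, iA, b, c, hFr, hSt⟩ := hPer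
  have hSE : StE φ Ω := by
    intro ω u v h
    obtain ⟨e, S, hS⟩ := hSt ω
    have h1 : ((u, v) : V × V) ∈ MulAction.stabilizer (V × V) ω := h
    rw [hS] at h1
    obtain ⟨s, _, hs⟩ := h1
    have h2 : φ e s = u := congrArg Prod.fst hs
    have h3 : s = v := congrArg Prod.snd hs
    exact ⟨e, by rw [← h2, h3]⟩
  let iW : MulAction (W × W) Ω := MulAction.compHom Ω (W.subtype.prodMap W.subtype)
  have hFr' : FrR (bw F (aw α W)) b c :=
    ⟨fun g t => hFr.1 (W.subtype.prodMap W.subtype g) t,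
      fun g t n => hFr.2.1 (W.subtype.prodMap W.subtype g) t n, hFr.2.2⟩
  obtain ⟨D₀, θ, hθw, hθ⟩ := hD F W A A' Ω (aw α W) α' b c hFr' df
  have hq : ∀ Z : D₀.R, df.q (θ Z) = D₀.sq Z 0 := by
    intro Z
    have h1 := hθ (D₀.sq Z)
    rw [Dm.of_sq] at h1
    exact h1
  constructor
  · intro z₀ hz₀
    obtain ⟨Z, hZ, hZ0⟩ := hC ℓ F V E A κ Ω φ W z α lam x y b c u D₀ hRF hFr hSE hVz hu z₀ hz₀
    refine ⟨θ Z, fun a => ?_, ?_⟩
    · have h1 := congrArg θ (hZ (θ.symm a))
      rw [map_mul, map_mul, AlgEquiv.apply_symm_apply] at h1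
      exact h1
    · rw [hq, hZ0]
  · obtain ⟨Λ, κ', iκ, x', y', hR, hΛ⟩ :=
      hF ℓ F V E A κ Ω φ W z α lam x y b c u D₀ hRF hFr hSE hVz hu
    refine ⟨Λ.comp θ.symm.toLinearMap, κ', iκ, fun k => θ (x' k), fun k => θ (y' k), ?_, ?_⟩
    · constructor
      · intro a a'
        change Λ (θ.symm (a * a')) = Λ (θ.symm (a' * a))
        rw [map_mul θ.symm, map_mul θ.symm, hR.sym]
      · intro a
        have h1 := congrArg θ (hR.e1 (θ.symm a))
        rw [AlgEquiv.apply_symm_apply, map_sum] at h1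
        refine Eq.trans (Finset.sum_congr rfl fun k _ => ?_) h1
        rw [map_sum]
        refine Finset.sum_congr rfl fun w _ => ?_
        have h2 : Λ (θ.symm (α' w⁻¹ * θ (y' k) * a)) = Λ (D₀.w w⁻¹ * y' k * θ.symm a) := by
          rw [map_mul θ.symm, map_mul θ.symm, AlgEquiv.symm_apply_apply, ← hθw,
            AlgEquiv.symm_apply_apply]
        change Λ (θ.symm (α' w⁻¹ * θ (y' k) * a)) • _ = _
        rw [map_smul θ, map_mul θ, hθw, h2]
      · intro a
        have h1 := congrArg θ (hR.e2 (θ.symm a))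
        rw [AlgEquiv.apply_symm_apply, map_sum] at h1
        refine Eq.trans (Finset.sum_congr rfl fun k _ => ?_) h1
        rw [map_sum]
        refine Finset.sum_congr rfl fun w _ => ?_
        have h2 : Λ (θ.symm (a * (θ (x' k) * α' w))) = Λ (θ.symm a * (x' k * D₀.w w)) := by
          rw [map_mul θ.symm, map_mul θ.symm, AlgEquiv.symm_apply_apply, ← hθw,
            AlgEquiv.symm_apply_apply]
        change Λ (θ.symm (a * (θ (x' k) * α' w))) • _ = _
        rw [map_smul θ, map_mul θ, hθw, h2]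
    · intro a
      change PowerSeries.constantCoeff (Λ (θ.symm a)) = _
      have h1 := hΛ (D₀.sq (θ.symm a))
      rw [Dm.of_sq] at h1
      rw [h1, ← hq, AlgEquiv.apply_symm_apply]

end Pool.Agent.PSS.H40
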